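import Pool.Agent.H16.CX.Basic

/-!
# CPT: the dichotomy for compact spaces
-/

set_option autoImplicit false

open Set Topology Filter MeasureTheory

namespace Pool.Agent.H86.CXS

open Pool.Agent.H16.CX

attribute [local instance] Pool.Agent.H71.permTop

theorem pf_cpt : T_FXK → T_SUR → T_COD → T_CLS → T_CCT → Pool.Agent.H72.UV.SigmaStmt → T_CPT := by
  intro hFXK hSUR hCOD hCLS hCCT hS X _ _ _ _ R
  by_cases hPM : PM R
  · exact Or.inr hPM
  left
  have hF : ∀ (k : ℕ) (Z : Set X), IsClosed Z → Z.Nonempty → InvK R k Z →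
      ∃ x ∈ Z, ∀ g ∈ VS k, R.res (pe g) x = x :=
    fun k Z h1 h2 h3 => (hFXK X R k Z h1 h2 h3).resolve_right hPM
  have hsur := hSUR X R hF
  rcases hCOD X R hS with ⟨D, hD, hDc⟩ | ⟨f, hf, hfF, hfn⟩
  · let dbl : ℕ ↪ ℕ := ⟨fun i => 2 * i, fun a b h => by
      have h' : 2 * a = 2 * b := h
      omega⟩
    refine ⟨(R.res dbl) '' D, hD.image _, fun x => ?_⟩
    obtain ⟨z, hz, hzx⟩ := hsur x
    have h1 := hzx dbl (fun i => rfl)
    obtain ⟨d, hd, g, h, hgh, hgd⟩ := hDc z hz
    refine ⟨R.res dbl d, ⟨d, hd, rfl⟩, h, ?_⟩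
    rw [← h1, ← R.comp, ← hgd, ← R.comp]
    congr 1
    ext i
    exact (hgh i).symm
  · exfalso
    have hinj : Function.Injective f := by
      intro s t hst
      by_contra hne
      refine hfn s t hne ⟨1, 1, fun i => rfl, ?_⟩
      rw [res_one, hst]
    refine hPM (hCCT X R f hf fun s => ?_)
    have h1 : (f '' {t | Eqv R (f s) (f t)}).Countable := by
      refine hCLS X R (f s) _ ?_ ?_ ?_
      · rintro _ ⟨t, -, rfl⟩
        exact hfF t
      · rintro _ ⟨t, ht, rfl⟩
        exact ht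
      · rintro _ ⟨t, -, rfl⟩ _ ⟨t', -, rfl⟩ hE
        by_contra hne
        exact hfn t t' (fun h => hne (by rw [h])) hE
    exact (h1.preimage hinj).mono (subset_preimage_image f _)

end Pool.Agent.H86.CXS
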